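import Pool.Agent.H527R9.CC.Main3
import Pool.Agent.H527R9.CC.T_SQ
import Pool.Agent.H527R9.CC.T_LC
import Pool.Agent.H527R9.CC.T_QR
import Pool.Agent.H527R9.CC.T_INF
import Pool.Agent.H527R9.CC.T_HS
import Pool.Agent.H527R9.CC.T_HMA
import Pool.Agent.H527R9.CC.T_HMB
import Pool.Agent.H527R9.CC.T_HM
import Pool.Agent.H527R9.CC.T_HM2
import Pool.Agent.H527R9.CC.T_CON
import Pool.Agent.H527R9.CC.T_NSQ
import Pool.Agent.H527R9.CC.T_NCG
import Pool.Agent.H527R9.CC.T_DEG
import Pool.Agent.H527R9.CC.T_LOC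
import Pool.Agent.H527R9.CC.T_SQK
import Pool.Agent.H527R9.CC.T_LCK
import Pool.Agent.H527R9.CC.T_INFK
import Pool.Agent.H527R9.CC.T_HMK
import Pool.Agent.H527R9.CC.T_ROOTS
import Pool.Agent.H527R9.CC.T_RICH
import Pool.Agent.H527R9.CC.T_SPR
import Pool.Agent.H527R9.CC.T_NPK

/-!
# The integers are not a Boolean combination of conic, power and local conditions
-/

set_option autoImplicit false

namespace Pool.Agent.Results.MP_28f2cb_lc.ConicConditions

open Polynomial Pool.Agent.H527R9.CC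

/-- integrality at the primes outside `Q` -/
theorem ring_mem (Q : Set ℕ) :
    Alg3 Q {x : ℚ | ∀ p : ℕ, p.Prime → p ∉ Q → padicNorm p x ≤ 1} := by
  refine Alg3.fam _ ⟨Set.univ, fun p => {x | padicNorm p x ≤ 1}, ∅, Set.finite_empty, ?_, ?_, ?_⟩
  · intro x _
    exact ⟨1, one_pos, fun y _ => by simp⟩
  · intro p hp x _
    have : Fact p.Prime := ⟨hp⟩
    refine ⟨1, one_pos, fun y hy => ⟨fun h => ?_, fun h => ?_⟩⟩
    · have h1 : x = y + -(y - x) := by ring
      show padicNorm p x ≤ 1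
      rw [h1]
      refine padicNorm.nonarchimedean.trans (max_le h ?_)
      rw [padicNorm.neg]
      exact hy.le
    · have h1 : y = x + (y - x) := by ring
      show padicNorm p y ≤ 1
      rw [h1]
      exact padicNorm.nonarchimedean.trans (max_le h hy.le)
  · ext x
    simp

/-- **The integers are not a Boolean combination of conic, power and local conditions.**

Let `Q` be a set of natural numbers containing, for every finite set `C` of nonzero rational
numbers, every `L` and every `D`, arbitrarily large primes `p = 1 mod D` for which the elements of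
`C` are `L`-th powers in `ℚ_p`.  Let `Alg3 Q` be the Boolean algebra of sets of rational numbers
generated by all sets `{x | ∃ y z ∈ ℚ, a(x) y ^ 2 + b(x) z ^ 2 = c(x)}` and
`{x | ∃ y ∈ ℚ, y ^ k = f(x)}` with polynomials `a, b, c, f`, all sets which are locally constant
off a finite set in the topology of one `ℚ_q`, and all sets given by the conjunction of a real
condition and of `p`-adic conditions for all primes `p ∉ Q`, all locally constant off one finite
set.  Then `ℤ` is not in the algebra; more generally, a set in the algebra which consists of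
integers is nowhere dense in `ℤ` for the profinite topology. -/
theorem result :
    (∀ Q : Set ℕ, Rich3 Q →
      (¬ Alg3 Q (Set.range fun n : ℤ => (n : ℚ))) ∧
      (∀ A : Set ℚ, Alg3 Q A → A ⊆ Set.range (fun n : ℤ => (n : ℚ)) → ∀ a₁ b₁ : ℤ, 0 < b₁ →
        ∃ a b : ℤ, 0 < b ∧ b₁ ∣ b ∧ b₁ ∣ a - a₁ ∧ ∀ n : ℤ, b ∣ n - a → (n : ℚ) ∉ A)) ∧
    (∀ Q : Set ℕ, Alg3 Q {x : ℚ | ∀ p : ℕ, p.Prime → p ∉ Q → padicNorm p x ≤ 1}) ∧
    (∀ f : ℕ → ℕ, ∃ q : ℕ → ℕ, StrictMono q ∧ (∀ i, f i ≤ q i) ∧ Rich3 (Set.range q)) := by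
  have hHM : S_HM := t_HM t_HMA t_HMB t_HS
  have hLC : S_LC := t_LC t_SQ
  have hINF : S_INF := t_INF t_SQ (t_QR t_SQ)
  have hCON : S_CON := t_CON hHM hLC hINF t_HS
  have hDEG : S_DEG := t_DEG (t_NSQ t_HM2 hLC hINF) t_NCG
  have hNPK : S_NPK := t_NPK t_HMK (t_LCK t_SQK) (t_INFK t_SQK) hLC
  refine ⟨fun Q hQ => ?_, ring_mem, t_SPR (t_RICH t_ROOTS)⟩
  have hmain := main3 hCON hDEG t_LOC hNPK Q hQ
  refine ⟨fun h => ?_, hmain⟩
  obtain ⟨a, b, hb, -, -, hab⟩ := hmain _ h subset_rfl 0 1 one_pos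
  exact hab a (by simp) ⟨a, rfl⟩

end Pool.Agent.Results.MP_28f2cb_lc.ConicConditions
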