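import Mathlib
import Pool.Agent.H458.Sp.Param
import Pool.Agent.H458.Sp.Nonint
import Pool.Agent.H458.Sp.Formula

set_option autoImplicit false

/-!
# Witnesses for an existential definition of the integers in the rationals are not sparse

Let `φ(t, y_1, ..., y_n)` be a quantifier-free formula over `ℚ` which defines, after existential
quantification of `y_1, ..., y_n`, the set of integers or any set of integers.  Let `d` bound the
degrees and `A` the sums of the absolute values of the coefficients of its polynomials.  Let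
`(t, y)` be a rational solution of `φ` which is sparse in some base `b ≥ 2`: with a common
denominator `w`, the integers `w, w t, w y_1, ..., w y_n` are combinations of the same `r` powers
of `b` with integral coefficients of absolute value at most `B`.  Then
`|t| ≤ r B ((1 + A) (r B) ^ d) ^ (4 (4 d) ^ r)`, whatever `b` is.

So if `ℤ` is existentially definable in `ℚ`, then for every definition the witnesses `y` for the
integer `t` have an unbounded number of nonzero digits, even for the integers `t = 2 ^ N` and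
even if blocks of digits are counted as one digit as long as their length is a small proportion of
`log |t|`.

Method: otherwise Dirichlet's box principle applied to the exponents deforms the solution to a
rational curve of solutions on which `t` is a nonconstant rational function; it takes non-integral
values at rational points.
-/

namespace Pool.Agent.Results.MP_28f2cb_lc.WitnessesNotSparse

open Pool.Agent.H458.Sp MvPolynomial

/-- the sum of the absolute values of the coefficients of `F` -/
noncomputable def coeffSum {n : ℕ} (F : MvPolynomial (Fin n) ℤ) : ℤ :=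
  ∑ s ∈ F.support, |coeff s F|

/-- the sparse integer with digits `c` and exponents `e` in base `b` -/
def sp {r : ℕ} (b : ℕ) (e : Fin r → ℕ) (c : Fin r → ℤ) : ℤ := ∑ j, c j * (b : ℤ) ^ (e j)

theorem result {n r : ℕ} (φ : QF (n + 1)) (d A B : ℕ) (hd1 : 1 ≤ d) (hA1 : 1 ≤ A)
    (hd : ∀ F ∈ polys φ, F.totalDegree ≤ d) (hA : ∀ F ∈ polys φ, coeffSum F ≤ A)
    (hZ : ∀ (t : ℚ) (y : Fin n → ℚ), Holds φ (Fin.cons t y) → ∃ k : ℤ, t = k)
    (t : ℚ) (y : Fin n → ℚ) (hty : Holds φ (Fin.cons t y))
    (b : ℕ) (hb : 2 ≤ b) (e : Fin r → ℕ)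
    (c0 ct : Fin r → ℤ) (cy : Fin n → Fin r → ℤ)
    (hc0 : ∀ j, |c0 j| ≤ B) (hct : ∀ j, |ct j| ≤ B) (hcy : ∀ i j, |cy i j| ≤ B)
    (hw : sp b e c0 ≠ 0) (ht : t = sp b e ct / sp b e c0)
    (hy : ∀ i, y i = sp b e (cy i) / sp b e c0) :
    |t| ≤ r * B * ((1 + A) * (r * B) ^ d) ^ (4 * (4 * d) ^ r) := by
  classical
  set c : Fin (n + 1 + 1) → Fin r → ℤ := Fin.cons c0 (Fin.cons ct cy) with hcdef
  have hc : ∀ i j, |c i j| ≤ B := by
    intro i
    refine Fin.cases (fun j => hc0 j) (fun i => ?_) i
    refine Fin.cases (fun j => hct j) (fun i j => ?_) i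
    exact hcy i j
  set z : Fin (n + 1 + 1) → ℤ := fun i => sp b e (c i) with hz
  have hw' : z 0 ≠ 0 := hw
  have hwQ : ((z 0 : ℤ) : ℚ) ≠ 0 := by exact_mod_cast hw'
  set q : Fin (n + 1) → ℚ := Fin.cons t y with hq
  have hqz : (fun i : Fin (n + 1) => ((z i.succ : ℤ) : ℚ) / ((z 0 : ℤ) : ℚ)) = q := by
    funext i
    refine Fin.cases ?_ (fun i => ?_) i
    · exact ht.symm
    · exact (hy i).symm
  have hrB : 1 ≤ r * B := by
    by_contra hcon
    apply hw
    unfold sp
    rcases Nat.mul_eq_zero.1 (show r * B = 0 by omega) with h | h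
    · subst h
      simp
    · have h1 : ∀ j, c0 j = 0 := fun j => by
        have := hc0 j
        rw [h] at this
        exact abs_eq_zero.1 (le_antisymm (by simpa using this) (abs_nonneg _))
      simp [h1]
  set FF : Set (MvPolynomial (Fin (n + 1 + 1)) ℤ) :=
    {G | ∃ F ∈ polys φ, aeval q F = 0 ∧ G = hom d F} with hFF
  obtain ⟨p, hp1, hp2, hp3⟩ := param FF d hd1 A hA1 (by
    rintro G ⟨F, hF, _, rfl⟩
    exact hom_degree d F (hd F hF)) (by
    rintro G ⟨F, hF, _, rfl⟩
    exact (hom_nz d F).trans (hA F hF)) b hb B hrB e c hc z (fun i => rfl) (by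
    rintro G ⟨F, hF, h1, rfl⟩
    have h2 := (hom_zero_iff d F (hd F hF) (fun i => (z i : ℚ)) hwQ).2 (by rw [hqz]; exact h1)
    rw [aeval_intCast] at h2
    exact_mod_cast h2)
  set M : ℕ := r * B * ((1 + A) * (r * B) ^ d) ^ (4 * (4 * d) ^ r) with hM
  have hp0 : p 0 ≠ 0 := by
    intro h
    have h1 := hp2 0
    rw [h, Polynomial.eval_zero] at h1
    exact hw' h1.symm
  have hgoal : |t| ≤ (M : ℚ) → |t| ≤ r * B * ((1 + A) * (r * B) ^ d) ^ (4 * (4 * d) ^ r) := by
    intro h
    rw [hM] at h
    push_cast at h
    exact h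
  apply hgoal
  by_cases hconst : ∃ k : ℤ, p 1 = Polynomial.C k * p 0
  · obtain ⟨k, hk⟩ := hconst
    have h1 : (z 1 : ℤ) = k * z 0 := by
      have h2 := hp2 1
      rw [hk, Polynomial.eval_mul, Polynomial.eval_C, hp2 0] at h2
      exact h2.symm
    have h2 : t = k := by
      have h3 : t = (z 1 : ℚ) / (z 0 : ℚ) := ht
      rw [h3, h1]
      push_cast
      field_simp
    have h3 := hp3 1 (p 0).natDegree
    rw [hk, Polynomial.coeff_C_mul, abs_mul] at h3
    have h4 : 1 ≤ |(p 0).coeff (p 0).natDegree| := Int.one_le_abs (by simpa using hp0)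
    have h5 : |k| ≤ (M : ℤ) := by
      have h6 : |k| * 1 ≤ |k| * |(p 0).coeff (p 0).natDegree| :=
        mul_le_mul_of_nonneg_left h4 (abs_nonneg _)
      linarith
    rw [h2]
    exact_mod_cast h5
  · exfalso
    push Not at hconst
    -- the polynomials that do not vanish
    set NN : Finset (MvPolynomial (Fin (n + 1)) ℤ) :=
      (polys φ).toFinset.filter (fun F => ¬ aeval q F = 0) with hNN
    set g : Polynomial ℤ := ∏ F ∈ NN, aeval p (hom d F) with hg
    have hbev : ∀ G : MvPolynomial (Fin (n + 1 + 1)) ℤ,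
        (aeval p G).eval (b : ℤ) = eval z G := by
      intro G
      rw [aeval_def, eval₂_eq', Polynomial.eval_finsetSum, eval_eq']
      refine Finset.sum_congr rfl fun s _ => ?_
      rw [Polynomial.eval_mul, Polynomial.eval_prod]
      congr 1
      · exact Polynomial.eval_C
      · exact Finset.prod_congr rfl fun i _ => by rw [Polynomial.eval_pow, hp2]
    have hg0 : g ≠ 0 := by
      refine Finset.prod_ne_zero_iff.2 fun F hF => ?_
      intro h
      have h1 := hbev (hom d F)
      rw [h, Polynomial.eval_zero] at h1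
      have h2 : aeval (fun i => (z i : ℚ)) (hom d F) = 0 := by
        rw [aeval_intCast, ← h1, Int.cast_zero]
      rw [hom_zero_iff d F (hd F (List.mem_toFinset.1 (Finset.mem_filter.1 hF).1)) _ hwQ,
        hqz] at h2
      exact (Finset.mem_filter.1 hF).2 h2
    obtain ⟨s, hs1, hs2, hs3⟩ := exists_nonint (p 0) (p 1) g hp0 hg0 hconst
    set z' : Fin (n + 1 + 1) → ℚ := fun i => Polynomial.aeval s (p i) with hz'
    have hz0 : z' 0 ≠ 0 := hs2
    have hsev : ∀ G : MvPolynomial (Fin (n + 1 + 1)) ℤ,
        Polynomial.aeval s (aeval p G) = aeval z' G := fun G => comp_aeval_apply p _ G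
    set q' : Fin (n + 1) → ℚ := fun i => z' i.succ / z' 0 with hq'
    have hq'cons : q' = Fin.cons (q' 0) (fun i => q' i.succ) := (Fin.cons_self_tail q').symm
    have hhold : Holds φ q' := by
      rw [← holds_congr q _ φ]
      · exact hty
      intro F hF
      rw [← hom_zero_iff d F (hd F hF) z' hz0]
      constructor
      · intro h
        rw [← hsev, hp1 _ ⟨F, hF, h, rfl⟩, map_zero]
      · intro h
        by_contra hcon
        rw [hg, map_prod] at hs1
        have h1 := Finset.prod_ne_zero_iff.1 hs1 F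
          (Finset.mem_filter.2 ⟨List.mem_toFinset.2 hF, hcon⟩)
        rw [hsev] at h1
        exact h1 h
    rw [hq'cons] at hhold
    obtain ⟨k, hk⟩ := hZ _ _ hhold
    exact hs3 k hk

end Pool.Agent.Results.MP_28f2cb_lc.WitnessesNotSparse
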